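import Pool.Agent.W153.EO.Sep
import Pool.Agent.W153.EO.Count
import Pool.Agent.H430R3.KST

set_option autoImplicit false

/-!
# The path on seven vertices of `W153.EO`: quadratic upper bound `o(n²)`, and the lower bound
`n 2^{c √log n}`
-/

namespace Pool.Agent.N35.EdgeOrd

open Pool.Agent.W153.EO Finset

/-- Avoiding the pattern (form of the frozen statement). -/
def Av {n : ℕ} (G : SimpleGraph (Fin n)) (M : Sym2 (Fin n) → ℕ) : Prop :=
  ¬ ∃ φ : Fin 7 ↪ Fin n, (∀ a b, pat.Adj a b → G.Adj (φ a) (φ b)) ∧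
    ∀ e ∈ pat.edgeSet, ∀ f ∈ pat.edgeSet, lab e < lab f →
      M (Sym2.map (⇑φ) e) < M (Sym2.map (⇑φ) f)

theorem av_iff {n : ℕ} (G : SimpleGraph (Fin n)) (M : Sym2 (Fin n) → ℕ) : Av G M ↔ ¬ W153.EO.Cont G M := by
  unfold Av W153.EO.Cont
  rw [not_iff_not]
  constructor
  · rintro ⟨φ, h1, h2⟩
    exact ⟨φ, φ.injective, h1, h2⟩
  · rintro ⟨φ, h0, h1, h2⟩
    exact ⟨⟨φ, h0⟩, h1, h2⟩

/-- A complete bipartite subgraph on two finsets gives a copy of the complete bipartite host. -/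
theorem cont_of_biclique {n : ℕ} (G : SimpleGraph (Fin n)) (M : Sym2 (Fin n) → ℕ)
    (hM : Set.InjOn M G.edgeSet) {N K : ℕ}
    (hNK : ∀ g : Sym2 (Fin N ⊕ Fin K) → ℕ,
      Set.InjOn g (completeBipartiteGraph (Fin N) (Fin K)).edgeSet →
      W153.EO.Cont (completeBipartiteGraph (Fin N) (Fin K)) g)
    (X Y : Finset (Fin n)) (hX : N ≤ X.card) (hY : K ≤ Y.card)
    (hXY : ∀ x ∈ X, ∀ y ∈ Y, G.Adj x y) : W153.EO.Cont G M := by
  classical
  -- injections
  obtain ⟨X', hX', hX'c⟩ := exists_subset_card_eq hX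
  obtain ⟨Y', hY', hY'c⟩ := exists_subset_card_eq hY
  let eX : Fin N ≃ X' := (Finset.equivFinOfCardEq hX'c).symm
  let eY : Fin K ≃ Y' := (Finset.equivFinOfCardEq hY'c).symm
  let ψ : Fin N ⊕ Fin K → Fin n := Sum.elim (fun i => (eX i : Fin n)) (fun j => (eY j : Fin n))
  have hXmem : ∀ i, (eX i : Fin n) ∈ X := fun i => hX' (eX i).2
  have hYmem : ∀ j, (eY j : Fin n) ∈ Y := fun j => hY' (eY j).2
  have hψ : Function.Injective ψ := by
    rintro (i | i) (j | j) h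
    · simp only [ψ, Sum.elim_inl] at h
      rw [eX.injective (Subtype.ext h)]
    · simp only [ψ, Sum.elim_inl, Sum.elim_inr] at h
      have := hXY _ (hXmem i) _ (hYmem j)
      rw [h] at this
      exact absurd this (G.loopless.irrefl _)
    · simp only [ψ, Sum.elim_inl, Sum.elim_inr] at h
      have := hXY _ (hXmem j) _ (hYmem i)
      rw [← h] at this
      exact absurd this (G.loopless.irrefl _)
    · simp only [ψ, Sum.elim_inr] at h
      rw [eY.injective (Subtype.ext h)]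
  have hadj : ∀ u v, (completeBipartiteGraph (Fin N) (Fin K)).Adj u v → G.Adj (ψ u) (ψ v) := by
    rintro (i | i) (j | j) h
    · simp at h
    · exact hXY _ (hXmem i) _ (hYmem j)
    · exact (hXY _ (hXmem j) _ (hYmem i)).symm
    · simp at h
  have hmem : ∀ e ∈ (completeBipartiteGraph (Fin N) (Fin K)).edgeSet, Sym2.map ψ e ∈ G.edgeSet := by
    intro e he
    induction e using Sym2.ind with
    | _ a b => exact hadj a b he
  have hinj : Set.InjOn (fun e => M (Sym2.map ψ e)) (completeBipartiteGraph (Fin N) (Fin K)).edgeSet := by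
    intro e he e' he' h
    exact Sym2.map.injective hψ (hM (hmem e he) (hmem e' he') h)
  obtain ⟨φ, h0, h1, h2⟩ := hNK _ hinj
  refine ⟨ψ ∘ φ, hψ.comp h0, fun u v huv => hadj _ _ (h1 u v huv), ?_⟩
  intro e₁ he₁ e₂ he₂ hlt
  have := h2 e₁ he₁ e₂ he₂ hlt
  simpa only [Sym2.map_map] using this

/-- The graphs avoiding the pattern have `o(n²)` edges. -/
theorem quad (ε : ℝ) (hε : 0 < ε) : ∃ N : ℕ, ∀ n : ℕ, N ≤ n →
    ∀ (G : SimpleGraph (Fin n)) (M : Sym2 (Fin n) → ℕ), Set.InjOn M G.edgeSet → Av G M →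
      (G.edgeSet.ncard : ℝ) ≤ ε * (n : ℝ) ^ 2 := by
  classical
  obtain ⟨N, K, hNK⟩ := exists_host
  obtain ⟨q, hq⟩ := exists_nat_gt (1 / ε)
  obtain ⟨R0, hR0⟩ := Pool.Agent.H430R3.weak_kst (N + K + 1) (q + 1) (by omega) (by omega)
  refine ⟨R0, ?_⟩
  intro n hn G M hM hav
  by_contra hcon
  push Not at hcon
  rw [av_iff] at hav
  apply hav
  have hdeg : ∑ x : Fin n, (univ.filter fun y => G.Adj x y).card = 2 * G.edgeSet.ncard := by
    have h1 := G.sum_degrees_eq_twice_card_edges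
    have h2 : G.edgeFinset.card = G.edgeSet.ncard := by
      rw [← SimpleGraph.coe_edgeFinset, Set.ncard_coe_finset]
    rw [← h2, ← h1]
    apply sum_congr rfl
    intro x _
    rw [← SimpleGraph.card_neighborFinset_eq_degree]
    congr 1
    ext y
    simp
  have hlt : n * n < (q + 1) * ∑ x ∈ (univ : Finset (Fin n)), (univ.filter fun y => G.Adj x y).card := by
    rw [hdeg]
    have hq' : 1 < ε * q := by
      rw [div_lt_iff₀ hε] at hq
      linarith
    have h3 : ((n * n : ℕ) : ℝ) < (((q + 1) * (2 * G.edgeSet.ncard) : ℕ) : ℝ) := by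
      push_cast
      have hn0 : (0 : ℝ) ≤ (n : ℝ) ^ 2 := by positivity
      have hE0 : (0 : ℝ) ≤ (G.edgeSet.ncard : ℝ) := by positivity
      have hq0 : (0 : ℝ) < q := by
        have := one_div_pos.mpr hε
        linarith
      have h4 : (n : ℝ) ^ 2 ≤ ε * q * (n : ℝ) ^ 2 := by nlinarith
      have h5 : (q : ℝ) * (ε * (n : ℝ) ^ 2) < q * (G.edgeSet.ncard : ℝ) :=
        mul_lt_mul_of_pos_left hcon hq0
      nlinarith
    exact_mod_cast h3
  obtain ⟨X', -, Y', -, hX', hY', hXY⟩ := hR0 (univ : Finset (Fin n)) (univ : Finset (Fin n))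
    (fun x y => G.Adj x y) n hn (by simp) (by simp) (by convert hlt)
  exact cont_of_biclique G M hM hNK X' Y' (by omega) (by omega) hXY

/-- The number of vertices and edges of the hosts: `edges ≥ 2 ^ b n / 4`, `log n ≤ 5 b²`. -/
theorem numbers (b : ℕ) (hb : 1 ≤ b) (n : ℕ)
    (hn : n = 2 ^ b * (b * 2 ^ b + 2 ^ b) ^ b + (2 * (b * 2 ^ b)) ^ b) :
    2 ^ b * (n : ℝ) ≤ 4 * (((2 * (b * 2 ^ b)) ^ b * 2 ^ b : ℕ) : ℝ) ∧
      Real.log (n : ℝ) ≤ 5 * (b : ℝ) ^ 2 := by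
  have hb' : (0 : ℝ) < b := by exact_mod_cast hb
  have hb1 : (1 : ℝ) ≤ b := by exact_mod_cast hb
  set X : ℝ := ((b : ℝ) * 2 ^ b) ^ b with hX
  have hXpos : 0 < X := by positivity
  have h2b : (1 : ℝ) ≤ 2 ^ b := one_le_pow₀ (by norm_num)
  have hnX : (n : ℝ) ≤ 4 * 2 ^ b * X := by
    rw [hn]
    push_cast
    have e1 : ((b : ℝ) * 2 ^ b + 2 ^ b) ^ b = (2 ^ b) ^ b * ((b : ℝ) + 1) ^ b := by
      rw [← mul_pow]
      congr 1
      ring
    have e2 : (2 * ((b : ℝ) * 2 ^ b)) ^ b = 2 ^ b * X := by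
      rw [mul_pow, hX]
    rw [e1, e2]
    have e3 : (2 ^ b) ^ b * ((b : ℝ) + 1) ^ b ≤ 3 * X := by
      calc ((2 : ℝ) ^ b) ^ b * ((b : ℝ) + 1) ^ b ≤ (2 ^ b) ^ b * (3 * (b : ℝ) ^ b) :=
            mul_le_mul_of_nonneg_left (pow_ratio b hb) (by positivity)
        _ = 3 * X := by
            rw [hX, mul_pow]
            ring
    calc (2 : ℝ) ^ b * ((2 ^ b) ^ b * ((b : ℝ) + 1) ^ b) + 2 ^ b * X
        ≤ 2 ^ b * (3 * X) + 2 ^ b * X := by
          have := mul_le_mul_of_nonneg_left e3 (by positivity : (0 : ℝ) ≤ 2 ^ b)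
          linarith
      _ = 4 * 2 ^ b * X := by ring
  have hnpos : 0 < n := by
    rw [hn]
    have : 0 < (2 * (b * 2 ^ b)) ^ b := by positivity
    omega
  have hn1 : (1 : ℝ) ≤ n := by exact_mod_cast hnpos
  have hlog2 : Real.log 2 ≤ 1 := by
    have := Real.log_two_lt_d9
    linarith
  have hE : (((2 * (b * 2 ^ b)) ^ b * 2 ^ b : ℕ) : ℝ) = 2 ^ b * (2 ^ b * X) := by
    push_cast
    rw [mul_pow, hX]
    ring
  constructor
  · rw [hE]
    calc 2 ^ b * (n : ℝ) ≤ 2 ^ b * (4 * 2 ^ b * X) := mul_le_mul_of_nonneg_left hnX (by positivity)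
      _ = 4 * (2 ^ b * (2 ^ b * X)) := by ring
  · calc Real.log n ≤ Real.log (4 * 2 ^ b * X) := Real.log_le_log (by linarith) hnX
      _ = 2 * Real.log 2 + b * Real.log 2 + b * (Real.log b + b * Real.log 2) := by
          rw [Real.log_mul (by positivity) (by positivity), Real.log_mul (by positivity) (by positivity),
            Real.log_pow, hX, Real.log_pow, Real.log_mul (by positivity) (by positivity), Real.log_pow,
            show (4 : ℝ) = 2 ^ 2 by norm_num, Real.log_pow]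
          push_cast
          ring
      _ ≤ 2 * 1 + b * 1 + b * (b + b * 1) := by
          have h1 := log_nat_le b hb
          have h2 : (b : ℝ) * Real.log 2 ≤ b * 1 := mul_le_mul_of_nonneg_left hlog2 hb'.le
          have h3 : (b : ℝ) * (Real.log b + b * Real.log 2) ≤ b * (b + b * 1) :=
            mul_le_mul_of_nonneg_left (by linarith) hb'.le
          linarith
      _ ≤ 5 * (b : ℝ) ^ 2 := by nlinarith

/-- Hosts: for every `b ≥ 1` there is an edge-ordered graph avoiding the pattern with `n ≥ b`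
vertices, `log n ≤ 5 b²`, and at least `2 ^ b n / 4` edges. -/
theorem hosts (b : ℕ) (hb : 1 ≤ b) : ∃ n : ℕ, b ≤ n ∧ Real.log (n : ℝ) ≤ 5 * (b : ℝ) ^ 2 ∧
    ∃ (G : SimpleGraph (Fin n)) (M : Sym2 (Fin n) → ℕ), Set.InjOn M G.edgeSet ∧ Av G M ∧
      2 ^ b * (n : ℝ) ≤ 4 * (G.edgeSet.ncard : ℝ) := by
  obtain ⟨G, g, hg, hC, hcard⟩ := transport (host b (2 ^ b) (b * 2 ^ b)) (ord b (2 ^ b) (b * 2 ^ b))
    (ord_injOn _ _ _) (host_avoids _ _ _)
  have hn := host_card b (2 ^ b) (b * 2 ^ b)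
  obtain ⟨h1, h2⟩ := numbers b hb _ hn
  refine ⟨_, ?_, h2, G, g, hg, (av_iff G g).mpr hC, ?_⟩
  · rw [hn]
    have h1 : b < 2 ^ b := Nat.lt_two_pow_self
    have h2 : 2 ^ b ≤ (2 * (b * 2 ^ b)) ^ b := by
      apply Nat.pow_le_pow_left
      have : 1 ≤ b * 2 ^ b := Nat.one_le_iff_ne_zero.mpr (by positivity)
      omega
    omega
  · refine h1.trans ?_
    rw [hcard]
    have := host_edges b (2 ^ b) (b * 2 ^ b)
    have h3 : (((2 * (b * 2 ^ b)) ^ b * 2 ^ b : ℕ) : ℝ) ≤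
        ((host b (2 ^ b) (b * 2 ^ b)).edgeSet.ncard : ℝ) := by exact_mod_cast this
    linarith

/-- No polylogarithmic bound. -/
theorem not_polylog : ¬ ∃ (c : ℕ) (C : ℝ), ∀ n : ℕ, 2 ≤ n →
    ∀ (G : SimpleGraph (Fin n)) (M : Sym2 (Fin n) → ℕ), Set.InjOn M G.edgeSet → Av G M →
      (G.edgeSet.ncard : ℝ) ≤ C * (n : ℝ) * (Real.log (n : ℝ)) ^ c := by
  rintro ⟨c, C, h⟩
  have h1 : Filter.Tendsto (fun b : ℕ => (b : ℝ) ^ (2 * c) / 2 ^ b) Filter.atTop (nhds 0) :=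
    tendsto_pow_const_div_const_pow_of_one_lt (2 * c) (by norm_num)
  have h2 := h1.const_mul (4 * |C| * 5 ^ c)
  rw [mul_zero] at h2
  have h3 : ∀ᶠ b : ℕ in Filter.atTop, 4 * |C| * 5 ^ c * ((b : ℝ) ^ (2 * c) / 2 ^ b) < 1 :=
    h2.eventually_lt_const (by norm_num)
  obtain ⟨b, hb, hb2⟩ := (h3.and (Filter.eventually_ge_atTop 2)).exists
  rw [← mul_div_assoc, div_lt_one (by positivity)] at hb
  obtain ⟨n, hbn, hlog, G, M, hM, hav, hE⟩ := hosts b (by omega)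
  have h4 := h n (by omega) G M hM hav
  have hn0 : (0 : ℝ) < n := by
    have : 0 < n := by omega
    exact_mod_cast this
  have hn1 : (1 : ℝ) ≤ n := by
    have : 1 ≤ n := by omega
    exact_mod_cast this
  have hl0 : 0 ≤ Real.log n := Real.log_nonneg hn1
  have h5 : C * (n : ℝ) * (Real.log (n : ℝ)) ^ c ≤ |C| * n * (5 * (b : ℝ) ^ 2) ^ c := by
    have a1 : (Real.log (n : ℝ)) ^ c ≤ (5 * (b : ℝ) ^ 2) ^ c := pow_le_pow_left₀ hl0 hlog c
    have a2 : C * (n : ℝ) ≤ |C| * n := mul_le_mul_of_nonneg_right (le_abs_self C) hn0.le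
    exact mul_le_mul a2 a1 (pow_nonneg hl0 c) (by positivity)
  have h6 : (5 * (b : ℝ) ^ 2) ^ c = 5 ^ c * (b : ℝ) ^ (2 * c) := by
    rw [mul_pow, ← pow_mul]
  have h7 : 2 ^ b * (n : ℝ) ≤ (4 * |C| * 5 ^ c * (b : ℝ) ^ (2 * c)) * n := by
    rw [h6] at h5
    calc 2 ^ b * (n : ℝ) ≤ 4 * (G.edgeSet.ncard : ℝ) := hE
      _ ≤ 4 * (C * (n : ℝ) * (Real.log (n : ℝ)) ^ c) := by linarith
      _ ≤ 4 * (|C| * n * (5 ^ c * (b : ℝ) ^ (2 * c))) := by linarith
      _ = _ := by ring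
  have h8 : (4 * |C| * 5 ^ c * (b : ℝ) ^ (2 * c)) * n < 2 ^ b * (n : ℝ) :=
    mul_lt_mul_of_pos_right hb hn0
  linarith

end Pool.Agent.N35.EdgeOrd
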